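import Pool.Agent.H58.Lg1

set_option autoImplicit false

namespace Pool.Agent.Results.MP_ccba21_an.Annulus

open Pool.Agent.H58.Lg

theorem result : ∃ (Ω : Set ℂ) (R : ℝ), 1 < R ∧ IsOpen Ω ∧ IsConnected Ω ∧
    Bornology.IsBounded Ω ∧
    (∀ n : ℕ, delta (closure Ω) n = delta (closure (Metric.ball 0 R)) n) ∧
    tdiam (closure Ω) = tdiam (closure (Metric.ball 0 R)) ∧
    tau (Metric.ball 0 R) < tau Ω :=
  ⟨An, 10, by norm_num, An_open, An_conn, Metric.isBounded_ball.subset Set.sdiff_subset, delta_eq,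
    by unfold tdiam; rw [funext delta_eq], tau_ball.trans_lt tau_An⟩

end Pool.Agent.Results.MP_ccba21_an.Annulus
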